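import Pool.Agent.H85.RT.Main

/-!
# The pointwise ergodic theorem for bounded functions
-/

namespace Pool.Agent.H85.RTX

open MeasureTheory Finset Filter Topology
open Pool.Agent.H85.RT

variable {Ω : Type*} [MeasurableSpace Ω] {m : Measure Ω} [IsProbabilityMeasure m]

/-- averages along the orbit -/
noncomputable def Av (S : Ω → Ω) (h : Ω → ℝ) (N : ℕ) (ω : Ω) : ℝ :=
  (∑ n ∈ range N, h (S^[n] ω)) / N

/-- the upper limit of the averages is larger than `b` -/
def Up (S : Ω → Ω) (h : Ω → ℝ) (b : ℝ) : Set Ω :=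
  {ω | ∃ j : ℕ, ∃ᶠ N in atTop, b + 1 / ((j : ℝ) + 1) < Av S h N ω}

omit [MeasurableSpace Ω] in
theorem Av_shift {S : Ω → Ω} {h : Ω → ℝ} {C : ℝ} (hb : ∀ ω, |h ω| ≤ C) (N : ℕ) (ω : Ω) :
    |Av S h N (S ω) - Av S h N ω| ≤ 2 * C / N := by
  unfold Av
  have e : ∑ n ∈ range N, h (S^[n] (S ω)) = ∑ n ∈ range N, h (S^[n] ω) + h (S^[N] ω) - h ω := by
    have e1 := Finset.sum_range_succ' (fun n => h (S^[n] ω)) N
    have e2 := Finset.sum_range_succ (fun n => h (S^[n] ω)) N
    simp only [Function.iterate_succ, Function.comp_apply, Function.iterate_zero, id] at e1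
    linarith
  rw [← sub_div, e, abs_div, Nat.abs_cast]
  refine div_le_div_of_nonneg_right ?_ (Nat.cast_nonneg _)
  have h1 := abs_le.mp (hb ω)
  have h2 := abs_le.mp (hb (S^[N] ω))
  rw [abs_le]
  constructor
  · linarith [h1.1, h1.2, h2.1, h2.2]
  · linarith [h1.1, h1.2, h2.1, h2.2]

theorem up_transfer {u v : ℕ → ℝ} {b : ℝ} (huv : Tendsto (fun N => u N - v N) atTop (𝓝 0))
    (h : ∃ j : ℕ, ∃ᶠ N in atTop, b + 1 / ((j : ℝ) + 1) < u N) :
    ∃ j : ℕ, ∃ᶠ N in atTop, b + 1 / ((j : ℝ) + 1) < v N := by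
  obtain ⟨j, hj⟩ := h
  refine ⟨j + 1, ?_⟩
  have hpos : (0 : ℝ) < 1 / ((j : ℝ) + 1) - 1 / (((j + 1 : ℕ) : ℝ) + 1) := by
    have h1 : (0 : ℝ) < (j : ℝ) + 1 := by positivity
    have h2 : ((j : ℝ) + 1) < (((j + 1 : ℕ) : ℝ) + 1) := by push_cast; linarith
    have h3 := one_div_lt_one_div_of_lt h1 h2
    linarith
  have hev := huv.eventually (gt_mem_nhds hpos)
  refine (hj.and_eventually hev).mono ?_
  rintro N ⟨h1, h2⟩
  linarith

omit [MeasurableSpace Ω] in
theorem diff_tendsto {S : Ω → Ω} {h : Ω → ℝ} {C : ℝ} (hb : ∀ ω, |h ω| ≤ C) (ω : Ω) :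
    Tendsto (fun N => Av S h N (S ω) - Av S h N ω) atTop (𝓝 0) := by
  refine squeeze_zero_norm (a := fun N : ℕ => 2 * C / N) (fun N => ?_)
    (tendsto_const_div_atTop_nhds_zero_nat (2 * C))
  rw [Real.norm_eq_abs]
  exact Av_shift hb N ω

omit [MeasurableSpace Ω] in
theorem Up_inv {S : Ω → Ω} {h : Ω → ℝ} {C : ℝ} (hb : ∀ ω, |h ω| ≤ C) (b : ℝ) (ω : Ω) :
    S ω ∈ Up S h b ↔ ω ∈ Up S h b := by
  constructor
  · exact up_transfer (diff_tendsto hb ω)
  · have := (diff_tendsto (S := S) hb ω).neg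
    rw [neg_zero] at this
    exact up_transfer (this.congr fun N => by ring)

theorem Av_meas {S : Ω → Ω} (hS : Measurable S) {h : Ω → ℝ} (hm : Measurable h) (N : ℕ) :
    Measurable (Av S h N) :=
  (Finset.measurable_sum _ fun n _ => hm.comp (hS.iterate n)).div_const _

theorem Up_meas {S : Ω → Ω} (hS : Measurable S) {h : Ω → ℝ} (hm : Measurable h) (b : ℝ) :
    MeasurableSet (Up S h b) := by
  have e : Up S h b = ⋃ j : ℕ, ⋂ a : ℕ, ⋃ N : ℕ, ⋃ _ : a ≤ N,
      {ω | b + 1 / ((j : ℝ) + 1) < Av S h N ω} := by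
    ext ω
    unfold Up
    simp only [frequently_atTop, Set.mem_ofPred_eq, Set.mem_iUnion, Set.mem_iInter, exists_prop]
  rw [e]
  refine MeasurableSet.iUnion fun j => MeasurableSet.iInter fun a => MeasurableSet.iUnion fun N =>
    MeasurableSet.iUnion fun _ => ?_
  exact measurableSet_lt measurable_const (Av_meas hS hm N)

/-- the maximal inequality on an invariant set -/
theorem set_ineq {S : Ω → Ω} (hS : MeasurePreserving S m m) {h : Ω → ℝ} (hm : Measurable h)
    {C : ℝ} (hb : ∀ ω, |h ω| ≤ C) {b : ℝ} {E : Set Ω} (hE : MeasurableSet E)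
    (hinv : ∀ ω, S ω ∈ E ↔ ω ∈ E) (hsub : E ⊆ Up S h b) :
    b * m.real E ≤ ∫ ω in E, h ω ∂m := by
  set D : ℝ := C + |b| + 1 with hD
  have hC0 : ∀ ω : Ω, 0 ≤ C := fun ω => (abs_nonneg _).trans (hb ω)
  have hC : 0 ≤ C := by
    obtain ⟨ω⟩ : Nonempty Ω := (inferInstance : (ae m).NeBot).nonempty
    exact hC0 ω
  have hl : 0 < b + D := by
    have := neg_abs_le b
    rw [hD]; linarith
  set ψ : Ω → ℝ := E.indicator (fun ω => h ω + D) with hψ
  have hψm : Measurable ψ := (hm.add_const D).indicator hE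
  have hnn : ∀ ω, 0 ≤ h ω + D := by
    intro ω
    have h1 := (abs_le.mp (hb ω)).1
    have := abs_nonneg b
    rw [hD]; linarith
  have hψ0 : ∀ ω, 0 ≤ ψ ω := fun ω => Set.indicator_nonneg (fun ω _ => hnn ω) ω
  have hψK : ∀ ω, ψ ω ≤ C + D := by
    intro ω
    by_cases hω : ω ∈ E
    · rw [hψ, Set.indicator_of_mem hω]
      have h1 := (abs_le.mp (hb ω)).2
      linarith
    · rw [hψ, Set.indicator_of_notMem hω]
      have := abs_nonneg b
      rw [hD]; linarith
  have hiter : ∀ ω ∈ E, ∀ n, S^[n] ω ∈ E := by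
    intro ω hω n
    induction n with
    | zero => exact hω
    | succ n ih =>
      rw [Function.iterate_succ_apply']
      exact (hinv _).mpr ih
  have hsub2 : E ⊆ {ω | ∃ N : ℕ, (b + D) * N < ∑ n ∈ range N, ψ (S^[n] ω)} := by
    intro ω hω
    obtain ⟨j, hj⟩ := hsub hω
    obtain ⟨N, hN1, hN⟩ := (hj.and_eventually (eventually_ge_atTop 1)).exists
    refine ⟨N, ?_⟩
    have hN' : (0 : ℝ) < N := by exact_mod_cast hN
    have h1 : b < Av S h N ω := by
      have : (0 : ℝ) < 1 / ((j : ℝ) + 1) := by positivity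
      linarith
    unfold Av at h1
    rw [lt_div_iff₀ hN'] at h1
    have h2 : ∑ n ∈ range N, ψ (S^[n] ω) = ∑ n ∈ range N, h (S^[n] ω) + N * D := by
      have h3 : ∀ n ∈ range N, ψ (S^[n] ω) = h (S^[n] ω) + D := fun n _ => by
        rw [hψ, Set.indicator_of_mem (hiter ω hω n)]
      rw [Finset.sum_congr rfl h3, Finset.sum_add_distrib]
      simp
    rw [h2]
    linarith
  have h1 := (measure_mono hsub2).trans (maxi hS hψm hψ0 hψK hl)
  have h2 : m.real E ≤ (∫ ω, ψ ω ∂m) / (b + D) := by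
    have h3 := ENNReal.toReal_mono ENNReal.ofReal_ne_top h1
    rw [ENNReal.toReal_ofReal (div_nonneg (integral_nonneg hψ0) hl.le)] at h3
    exact h3
  rw [le_div_iff₀ hl] at h2
  have h4 : ∫ ω, ψ ω ∂m = ∫ ω in E, h ω ∂m + D * m.real E := by
    rw [hψ, integral_indicator hE]
    have hi : Integrable h m := int_of_bdd hm hb
    rw [integral_add hi.integrableOn (integrable_const D).integrableOn]
    simp [mul_comm]
  rw [h4] at h2
  linarith

/-- the pointwise ergodic theorem for bounded functions -/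
theorem birkhoff {S : Ω → Ω} (hS : MeasurePreserving S m m) {h : Ω → ℝ} (hm : Measurable h)
    {C : ℝ} (hb : ∀ ω, |h ω| ≤ C) : ∀ᵐ ω ∂m, ∃ l : ℝ, Tendsto (fun N => Av S h N ω) atTop (𝓝 l) := by
  have hneg : ∀ ω, |(fun ω => - h ω) ω| ≤ C := fun ω => by
    simp only [abs_neg]; exact hb ω
  have hzero : ∀ a b : ℝ, a < b → m (Up S h b ∩ Up S (fun ω => - h ω) (-a)) = 0 := by
    intro a b hab
    set E := Up S h b ∩ Up S (fun ω => - h ω) (-a) with hE
    have hEm : MeasurableSet E := (Up_meas hS.measurable hm b).inter (Up_meas hS.measurable hm.neg _)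
    have hinv : ∀ ω, S ω ∈ E ↔ ω ∈ E := fun ω =>
      and_congr (Up_inv hb b ω) (Up_inv hneg (-a) ω)
    have h1 := set_ineq hS hm hb hEm hinv Set.inter_subset_left
    have h2 := set_ineq hS hm.neg hneg hEm hinv Set.inter_subset_right
    have h3 : ∫ ω in E, (-h) ω ∂m = - ∫ ω in E, h ω ∂m := integral_neg _
    rw [h3] at h2
    have h4 : 0 ≤ m.real E := measureReal_nonneg
    have h5 : (b - a) * m.real E ≤ 0 := by nlinarith
    have h6 : m.real E = 0 := by
      have : 0 < b - a := by linarith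
      nlinarith
    exact (measureReal_eq_zero_iff (measure_ne_top m E)).mp h6
  have hall : ∀ᵐ ω ∂m, ∀ q : ℚ × ℚ, q.1 < q.2 →
      ω ∉ Up S h q.2 ∩ Up S (fun ω => - h ω) (-(q.1 : ℝ)) := by
    rw [ae_all_iff]
    intro q
    by_cases hq : q.1 < q.2
    · have h1 : ∀ᵐ ω ∂m, ω ∉ Up S h q.2 ∩ Up S (fun ω => - h ω) (-(q.1 : ℝ)) :=
        measure_eq_zero_iff_ae_notMem.mp (hzero q.1 q.2 (by exact_mod_cast hq))
      filter_upwards [h1] with ω hω _
      exact hω
    · exact Eventually.of_forall fun ω h => absurd h hq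
  filter_upwards [hall] with ω hω
  have hbd : ∀ N, |Av S h N ω| ≤ C := by
    intro N
    unfold Av
    have hC0 : 0 ≤ C := (abs_nonneg _).trans (hb ω)
    rw [abs_div, Nat.abs_cast]
    rcases Nat.eq_zero_or_pos N with h0 | h0
    · rw [h0]; simpa using hC0
    · have hN : (0 : ℝ) < N := by exact_mod_cast h0
      rw [div_le_iff₀ hN]
      refine (Finset.abs_sum_le_sum_abs _ _).trans ?_
      refine (Finset.sum_le_sum fun n _ => hb _).trans ?_
      simp [mul_comm]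
  refine tendsto_of_no_upcrossings (s := Set.range ((↑) : ℚ → ℝ)) Rat.denseRange_cast ?_ ?_ ?_
  · rintro _ ⟨a, rfl⟩ _ ⟨b, rfl⟩ hab ⟨h1, h2⟩
    have hab' : (a : ℝ) < b := hab
    obtain ⟨a', ha1, ha2⟩ := exists_rat_btwn hab'
    obtain ⟨b', hb1, hb2⟩ := exists_rat_btwn ha2
    refine hω (a', b') (by exact_mod_cast hb1) ⟨?_, ?_⟩
    · obtain ⟨j, hj⟩ := exists_nat_one_div_lt (sub_pos.mpr hb2)
      refine ⟨j, h2.mono fun N hN => ?_⟩
      linarith
    · obtain ⟨j, hj⟩ := exists_nat_one_div_lt (sub_pos.mpr ha1)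
      refine ⟨j, h1.mono fun N hN => ?_⟩
      have e : Av S (fun ω => - h ω) N ω = - Av S h N ω := by
        unfold Av
        rw [Finset.sum_neg_distrib, neg_div]
      rw [e]
      linarith
  · exact isBoundedUnder_of ⟨C, fun N => (abs_le.mp (hbd N)).2⟩
  · exact isBoundedUnder_of ⟨-C, fun N => (abs_le.mp (hbd N)).1⟩

end Pool.Agent.H85.RTX
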