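import Pool.Agent.H85.RTX.Side
import Pool.Agent.H85.RTX.Birk

/-!
# Double recurrence averages with arbitrary bounded weights: reduction to the tail, Kolmogorov systems
-/

namespace Pool.Agent.H85.RTX

open MeasureTheory Finset Filter Topology
open Pool.Agent.H85.RT Pool.Agent.H85.RTM

universe u v

section

variable {X : Type u} {P : MeasurableSpace X} [m0 : MeasurableSpace X] {μ : Measure X}
  [IsProbabilityMeasure μ]

/-- the real version -/
theorem real_side {T : X ≃ᵐ X} (hT : MeasurePreserving T μ μ) (hP0 : P ≤ m0)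
    (hP : IsMono T.toEquiv P) {f g : X → ℝ} (hf : Measurable f) (hfb : ∀ x, |f x| ≤ 1 / 2)
    (hg : Measurable g) (hgb : ∀ x, |g x| ≤ 1 / 2)
    (hfs : AEStronglyMeasurable[span T.toEquiv P] f μ)
    (hgs : AEStronglyMeasurable[span T.toEquiv P] g μ) {w : ℕ → ℝ} (hw : ∀ n, |w n| ≤ 1) :
    ∀ᵐ x ∂μ, Tendsto (fun N : ℕ => (∑ n ∈ range N, w n * (f (T^[n] x) * g (T.symm^[n] x) -
      (μ[f | tail T.toEquiv P]) (T^[n] x) * (μ[g | tail T.toEquiv P]) (T.symm^[n] x))) / N)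
      atTop (𝓝 0) := by
  rcases hP with hP | hP
  · have hP' : P.comap T ≤ P := hP
    rw [span_future T hP'] at hfs hgs
    rw [tail_future T hP']
    have h := core_main (T := T.symm) (P := P) (hT.symm T) hP0 (symm_hyp T hP') hg hgb hf hfb
      hgs hfs hw
    filter_upwards [h] with x hx
    refine hx.congr fun N => ?_
    congr 1
    refine Finset.sum_congr rfl fun n _ => ?_
    rw [mul_comm (g _), mul_comm ((μ[g | ⨅ k : ℕ, P.comap T.symm.symm^[k]]) _)]
    rfl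
  · have hP' : P ≤ P.comap T := hP
    rw [span_past T hP'] at hfs hgs
    rw [tail_past T hP']
    exact core_main hT hP0 hP' hf hfb hg hgb hfs hgs hw

omit [IsProbabilityMeasure μ] in
/-- real and imaginary part of a bounded sequence -/
theorem split_w {w : ℕ → ℂ} (hw : ∃ C : ℝ, ∀ n, ‖w n‖ ≤ C) :
    ∃ (K : ℝ) (w1 w2 : ℕ → ℝ), (∀ n, |w1 n| ≤ 1) ∧ (∀ n, |w2 n| ≤ 1) ∧
      ∀ n, w n = (K : ℂ) * ((w1 n : ℂ) + Complex.I * (w2 n : ℂ)) := by
  obtain ⟨C, hC⟩ := hw
  have hC0 : 0 ≤ C := (norm_nonneg _).trans (hC 0)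
  have hK : (0 : ℝ) < C + 1 := by linarith
  have hKc : ((C + 1 : ℝ) : ℂ) ≠ 0 := by exact_mod_cast hK.ne'
  refine ⟨C + 1, fun n => (w n).re / (C + 1), fun n => (w n).im / (C + 1), fun n => ?_,
    fun n => ?_, fun n => ?_⟩
  · rw [abs_div, abs_of_pos hK, div_le_one hK]
    exact ((Complex.abs_re_le_norm _).trans (hC n)).trans (by linarith)
  · rw [abs_div, abs_of_pos hK, div_le_one hK]
    exact ((Complex.abs_im_le_norm _).trans (hC n)).trans (by linarith)
  · have e : ((w n).re : ℂ) + Complex.I * ((w n).im : ℂ) = w n := by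
      rw [mul_comm]; exact Complex.re_add_im (w n)
    have hKc' : ((C : ℂ) + 1) ≠ 0 := by
      have := hKc
      push_cast at this
      exact this
    conv_lhs => rw [← e]
    push_cast
    field_simp

/-- real and imaginary parts: measurability and conditional expectation -/
theorem parts {f : X → ℂ} {c : ℝ} {f1 f2 : X → ℝ} (hc : 0 < c) (M M' : MeasurableSpace X)
    (hf : MemLp f ⊤ μ) (hfs : AEStronglyMeasurable[M] f μ)
    (he : f =ᵐ[μ] fun x => (c : ℂ) * ((f1 x : ℂ) + Complex.I * (f2 x : ℂ))) :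
    AEStronglyMeasurable[M] f1 μ ∧ AEStronglyMeasurable[M] f2 μ ∧
      μ[f | M'] =ᵐ[μ] fun x => (c : ℂ) * (((μ[f1 | M']) x : ℂ) + Complex.I * ((μ[f2 | M']) x : ℂ)) := by
  have hi : Integrable f μ := hf.integrable le_top
  have e1 : (fun x => (f x).re) =ᵐ[μ] fun x => c * f1 x := by
    filter_upwards [he] with x hx
    rw [hx]
    simp
  have e2 : (fun x => (f x).im) =ᵐ[μ] fun x => c * f2 x := by
    filter_upwards [he] with x hx
    rw [hx]
    simp
  refine ⟨?_, ?_, ?_⟩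
  · have a1 : AEStronglyMeasurable[M] (fun x => c⁻¹ * (f x).re) μ :=
      (Complex.continuous_re.comp_aestronglyMeasurable hfs).const_mul c⁻¹
    refine a1.congr ?_
    filter_upwards [e1] with x hx
    rw [hx]
    field_simp
  · have a1 : AEStronglyMeasurable[M] (fun x => c⁻¹ * (f x).im) μ :=
      (Complex.continuous_im.comp_aestronglyMeasurable hfs).const_mul c⁻¹
    refine a1.congr ?_
    filter_upwards [e2] with x hx
    rw [hx]
    field_simp
  · have c1 : (fun x => ((μ[f | M']) x).re) =ᵐ[μ] fun x => c * (μ[f1 | M']) x := by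
      have a1 := Complex.reCLM.comp_condExp_comm (m := M') hi
      have a2 : μ[Complex.reCLM ∘ f | M'] =ᵐ[μ] μ[c • f1 | M'] := condExp_congr_ae e1
      have a3 : μ[c • f1 | M'] =ᵐ[μ] c • μ[f1 | M'] := condExp_smul c f1 M'
      exact (a1.trans a2).trans a3
    have c2 : (fun x => ((μ[f | M']) x).im) =ᵐ[μ] fun x => c * (μ[f2 | M']) x := by
      have a1 := Complex.imCLM.comp_condExp_comm (m := M') hi
      have a2 : μ[Complex.imCLM ∘ f | M'] =ᵐ[μ] μ[c • f2 | M'] := condExp_congr_ae e2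
      have a3 : μ[c • f2 | M'] =ᵐ[μ] c • μ[f2 | M'] := condExp_smul c f2 M'
      exact (a1.trans a2).trans a3
    filter_upwards [c1, c2] with x b1 b2
    apply Complex.ext
    · rw [b1]; simp
    · rw [b2]; simp

/-- both functions may be replaced by their conditional expectations on the tail -/
theorem complex_side {T : X ≃ᵐ X} (hT : MeasurePreserving T μ μ) (hP0 : P ≤ m0)
    (hP : IsMono T.toEquiv P) {f g : X → ℂ} (hf : MemLp f ⊤ μ) (hg : MemLp g ⊤ μ)
    (hfs : AEStronglyMeasurable[span T.toEquiv P] f μ)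
    (hgs : AEStronglyMeasurable[span T.toEquiv P] g μ) {w : ℕ → ℂ}
    (hw : ∃ C : ℝ, ∀ n, ‖w n‖ ≤ C) :
    ∀ᵐ x ∂μ, Tendsto (fun N => avg T f g w N x -
      avg T (μ[f | tail T.toEquiv P]) (μ[g | tail T.toEquiv P]) w N x) atTop (𝓝 0) := by
  obtain ⟨c, f1, f2, hc, hf1, hf2, hf1b, hf2b, hfe⟩ := rep hf
  obtain ⟨c', g1, g2, hc', hg1, hg2, hg1b, hg2b, hge⟩ := rep hg
  obtain ⟨K, w1, w2, hw1, hw2, hwe⟩ := split_w hw
  obtain ⟨sf1, sf2, ef⟩ := parts hc (span T.toEquiv P) (tail T.toEquiv P) hf hfs hfe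
  obtain ⟨sg1, sg2, eg⟩ := parts hc' (span T.toEquiv P) (tail T.toEquiv P) hg hgs hge
  have hTs : MeasurePreserving T.symm μ μ := hT.symm T
  filter_upwards [ae_orbit hT hfe, ae_orbit hTs hge, ae_orbit hT ef, ae_orbit hTs eg,
    real_side hT hP0 hP hf1 hf1b hg1 hg1b sf1 sg1 hw1,
    real_side hT hP0 hP hf1 hf1b hg2 hg2b sf1 sg2 hw1,
    real_side hT hP0 hP hf2 hf2b hg1 hg1b sf2 sg1 hw1,
    real_side hT hP0 hP hf2 hf2b hg2 hg2b sf2 sg2 hw1,
    real_side hT hP0 hP hf1 hf1b hg1 hg1b sf1 sg1 hw2,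
    real_side hT hP0 hP hf1 hf1b hg2 hg2b sf1 sg2 hw2,
    real_side hT hP0 hP hf2 hf2b hg1 hg1b sf2 sg1 hw2,
    real_side hT hP0 hP hf2 hf2b hg2 hg2b sf2 sg2 hw2]
    with x a1 a2 a3 a4 b1 b2 b3 b4 b5 b6 b7 b8
  have z1 := Z0_of_range b1
  have z2 := Z0_of_range b2
  have z3 := Z0_of_range b3
  have z4 := Z0_of_range b4
  have z5 := Z0_of_range b5
  have z6 := Z0_of_range b6
  have z7 := Z0_of_range b7
  have z8 := Z0_of_range b8
  have hz : Z0 (fun n => f (T^[n] x) * g (T.symm^[n] x) * w n -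
      (μ[f | tail T.toEquiv P]) (T^[n] x) * (μ[g | tail T.toEquiv P]) (T.symm^[n] x) * w n) := by
    have hall := ((((z1.add (z2.mul Complex.I)).add (z3.mul Complex.I)).add (z4.mul (-1))).add
      ((((z5.mul Complex.I).add (z6.mul (-1))).add (z7.mul (-1))).add (z8.mul (-Complex.I)))).mul
      ((c : ℂ) * c' * K)
    refine hall.congr fun n => ?_
    rw [a1 n, a2 n, a3 n, a4 n, hwe n]
    push_cast
    have hI : Complex.I ^ 2 = -1 := Complex.I_sq
    generalize ((f1 (T^[n] x) : ℝ) : ℂ) = p1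
    generalize ((f2 (T^[n] x) : ℝ) : ℂ) = p2
    generalize ((g1 (T.symm^[n] x) : ℝ) : ℂ) = q1
    generalize ((g2 (T.symm^[n] x) : ℝ) : ℂ) = q2
    generalize (((μ[f1 | tail T.toEquiv P]) (T^[n] x) : ℝ) : ℂ) = r1
    generalize (((μ[f2 | tail T.toEquiv P]) (T^[n] x) : ℝ) : ℂ) = r2
    generalize (((μ[g1 | tail T.toEquiv P]) (T.symm^[n] x) : ℝ) : ℂ) = s1
    generalize (((μ[g2 | tail T.toEquiv P]) (T.symm^[n] x) : ℝ) : ℂ) = s2
    generalize ((w1 n : ℝ) : ℂ) = v1
    generalize ((w2 n : ℝ) : ℂ) = v2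
    linear_combination ((c : ℂ) * c' * K * ((p2 * q2 - r2 * s2) * v1 +
      (p1 * q2 - r1 * s2) * v2 + (p2 * q1 - r2 * s1) * v2 +
      Complex.I * (p2 * q2 - r2 * s2) * v2)) * hI
  refine hz.congr' (Eventually.of_forall fun N => ?_)
  show _ = avg T f g w N x - avg T (μ[f | tail T.toEquiv P]) (μ[g | tail T.toEquiv P]) w N x
  unfold avg
  rw [← sub_div, ← Finset.sum_sub_distrib]

/-- Kolmogorov systems -/
theorem K_side' {T : X ≃ᵐ X} (hT : MeasurePreserving T μ μ) (hK : IsKWith P T μ) {f g : X → ℂ}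
    (hf : MemLp f ⊤ μ) (hg : MemLp g ⊤ μ) {w : ℕ → ℂ} (hw : ∃ C : ℝ, ∀ n, ‖w n‖ ≤ C) :
    ∀ᵐ x ∂μ, Tendsto (fun N : ℕ => avg T f g w N x -
      (∫ x, f x ∂μ) * (∫ x, g x ∂μ) * ((∑ n ∈ Finset.Icc 1 N, w n) / N)) atTop (𝓝 0) := by
  obtain ⟨hP0, hP, hgen, htriv⟩ := hK
  have hMle : tail T.toEquiv P ≤ m0 := tail_le T hP0
  have hSle : span T.toEquiv P ≤ m0 := span_le T hP0
  have hspan : ∀ h : X → ℂ, MemLp h ⊤ μ → AEStronglyMeasurable[span T.toEquiv P] h μ := by
    intro h hh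
    have hi : Integrable h μ := hh.integrable le_top
    have h1 : h =ᵐ[μ] μ[h | span T.toEquiv P] := by
      refine Integrable.ae_eq_of_forall_setIntegral_eq h _ hi integrable_condExp
        (fun A hA _ => ?_)
      obtain ⟨B, hB, hAB⟩ := hgen A hA
      rw [setIntegral_congr_set hAB, setIntegral_congr_set hAB, setIntegral_condExp hSle hi hB]
    exact (stronglyMeasurable_condExp.aestronglyMeasurable).congr h1.symm
  have htail : ∀ h : X → ℂ, MemLp h ⊤ μ → μ[h | tail T.toEquiv P] =ᵐ[μ] fun _ => ∫ x, h x ∂μ := by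
    intro h hh
    have hi : Integrable h μ := hh.integrable le_top
    symm
    refine ae_eq_condExp_of_forall_setIntegral_eq hMle hi (fun s _ _ => integrableOn_const)
      (fun s hs _ => ?_) stronglyMeasurable_const.aestronglyMeasurable
    rcases htriv s hs with h0 | h1
    · rw [Measure.restrict_eq_zero.mpr h0, integral_zero_measure, integral_zero_measure]
    · have h2 : (s : Set X) =ᵐ[μ] Set.univ := by
        rw [ae_eq_univ]
        exact (prob_compl_eq_zero_iff (hMle s hs)).mpr h1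
      rw [setIntegral_congr_set h2, setIntegral_congr_set h2]
      simp
  filter_upwards [complex_side hT hP0 hP hf hg (hspan f hf) (hspan g hg) hw,
    ae_orbit hT (htail f hf), ae_orbit (hT.symm T) (htail g hg)] with x a1 a2 a3
  refine a1.congr fun N => ?_
  congr 1
  unfold avg
  rw [← mul_div_assoc, Finset.mul_sum]
  congr 1
  refine Finset.sum_congr rfl fun n _ => ?_
  rw [a2 n, a3 n]

end

/-- Kolmogorov systems -/
theorem K_side {X : Type u} [mX : MeasurableSpace X] {μ : Measure X} [IsProbabilityMeasure μ]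
    {T : X ≃ᵐ X} (hT : MeasurePreserving T μ μ) (hK : IsK T μ) {f g : X → ℂ}
    (hf : MemLp f ⊤ μ) (hg : MemLp g ⊤ μ) {w : ℕ → ℂ} (hw : ∃ C : ℝ, ∀ n, ‖w n‖ ≤ C) :
    ∀ᵐ x ∂μ, Tendsto (fun N : ℕ => avg T f g w N x -
      (∫ x, f x ∂μ) * (∫ x, g x ∂μ) * ((∑ n ∈ Finset.Icc 1 N, w n) / N)) atTop (𝓝 0) := by
  obtain ⟨P, hK⟩ := hK
  exact @K_side' X P mX μ _ T hT hK f g hf hg w hw

/-- the pointwise ergodic theorem for essentially bounded complex functions -/
theorem birkhoff_complex {Ω : Type v} [MeasurableSpace Ω] {m : Measure Ω} [IsProbabilityMeasure m]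
    {S : Ω ≃ᵐ Ω} (hS : MeasurePreserving S m m) {h : Ω → ℂ} (hh : MemLp h ⊤ m) :
    ∀ᵐ ω ∂m, (∃ C : ℝ, ∀ n, ‖h (S^[n] ω)‖ ≤ C) ∧ ∃ l : ℂ,
      Tendsto (fun N : ℕ => (∑ n ∈ Finset.Icc 1 N, h (S^[n] ω)) / N) atTop (𝓝 l) := by
  obtain ⟨c, h1, h2, hc, hm1, hm2, hb1, hb2, he⟩ := rep hh
  filter_upwards [ae_orbit hS he, birkhoff hS hm1 hb1, birkhoff hS hm2 hb2]
    with ω a1 ⟨l1, a2⟩ ⟨l2, a3⟩
  refine ⟨⟨c * (1 / 2 + 1 / 2), fun n => ?_⟩, (c : ℂ) * (l1 + Complex.I * l2), ?_⟩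
  · rw [a1 n, norm_mul, Complex.norm_real, Real.norm_eq_abs, abs_of_pos hc]
    refine mul_le_mul_of_nonneg_left ?_ hc.le
    refine (norm_add_le _ _).trans (add_le_add ?_ ?_)
    · rw [Complex.norm_real]; exact hb1 _
    · rw [norm_mul, Complex.norm_I, one_mul, Complex.norm_real]; exact hb2 _
  · have key : ∀ (h : Ω → ℝ) (l : ℝ), Tendsto (fun N => Av S h N ω) atTop (𝓝 l) →
        Z0 (fun n => ((h (S^[n] ω) - l : ℝ) : ℂ)) := by
      intro h l hl
      apply Z0_of_range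
      have h3 := hl.sub_const l
      rw [sub_self] at h3
      refine h3.congr' ?_
      filter_upwards [eventually_gt_atTop 0] with N hN
      have hN' : (N : ℝ) ≠ 0 := by positivity
      unfold Av
      rw [Finset.sum_sub_distrib]
      simp only [Finset.sum_const, card_range, nsmul_eq_mul]
      field_simp
    have hz := ((key h1 l1 a2).add ((key h2 l2 a3).mul Complex.I)).mul (c : ℂ)
    have hz2 : Z0 (fun n => h (S^[n] ω) - (c : ℂ) * (l1 + Complex.I * l2)) := by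
      refine hz.congr fun n => ?_
      rw [a1 n]
      push_cast
      ring
    unfold Z0 at hz2
    have h3 := hz2.add_const ((c : ℂ) * (l1 + Complex.I * l2))
    rw [zero_add] at h3
    refine h3.congr' ?_
    filter_upwards [eventually_gt_atTop 0] with N hN
    have hN' : (N : ℂ) ≠ 0 := by exact_mod_cast hN.ne'
    rw [Finset.sum_sub_distrib]
    simp only [Finset.sum_const, Nat.card_Icc, nsmul_eq_mul, add_tsub_cancel_right]
    field_simp
    ring

theorem K_return {Ω : Type v} [MeasurableSpace Ω] {m : Measure Ω} [IsProbabilityMeasure m]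
    {S : Ω ≃ᵐ Ω} (hS : MeasurePreserving S m m) {h : Ω → ℂ} (hh : MemLp h ⊤ m) :
    ∀ᵐ ω ∂m, ∃ l : ℂ, ∀ (X : Type u) [MeasurableSpace X] (μ : Measure X) [IsProbabilityMeasure μ]
      (T : X ≃ᵐ X), MeasurePreserving T μ μ → IsK T μ → ∀ f g : X → ℂ, MemLp f ⊤ μ →
      MemLp g ⊤ μ → ∀ᵐ x ∂μ, Tendsto (fun N => avg T f g (fun n => h (S^[n] ω)) N x) atTop
        (𝓝 ((∫ x, f x ∂μ) * (∫ x, g x ∂μ) * l)) := by
  filter_upwards [birkhoff_complex hS hh] with ω ⟨hC, l, hl⟩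
  refine ⟨l, ?_⟩
  intro X _ μ _ T hT hK f g hf hg
  filter_upwards [K_side hT hK hf hg hC] with x hx
  have h1 := hx.add (hl.const_mul ((∫ x, f x ∂μ) * (∫ x, g x ∂μ)))
  rw [zero_add] at h1
  refine h1.congr fun N => ?_
  ring

end Pool.Agent.H85.RTX
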