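import Pool.Agent.H85.RT.Main

/-!
# Approximation in `L¹` of the functions in bilinear averages
-/

namespace Pool.Agent.H85.RTX

open MeasureTheory Finset Filter Topology
open Pool.Agent.H85.RT

variable {X : Type*} [MeasurableSpace X] {μ : Measure X} [IsProbabilityMeasure μ]

/-- the real averages at `x` tend to zero -/
def Bz (T : X ≃ᵐ X) (f g : X → ℝ) (w : ℕ → ℝ) (x : X) : Prop :=
  Tendsto (fun N : ℕ => (∑ n ∈ range N, w n * (f (T^[n] x) * g (T.symm^[n] x))) / N) atTop (𝓝 0)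

theorem Bz_add_left {T : X ≃ᵐ X} {f f' g : X → ℝ} {w : ℕ → ℝ} {x : X} (h : Bz T f g w x)
    (h' : Bz T f' g w x) : Bz T (fun x => f x + f' x) g w x := by
  have h3 := Tendsto.add h h'
  rw [add_zero] at h3
  refine h3.congr fun N => ?_
  rw [← add_div, ← Finset.sum_add_distrib]
  congr 1
  refine Finset.sum_congr rfl fun n _ => ?_
  ring

theorem Bz_swap {T : X ≃ᵐ X} {f g : X → ℝ} {w : ℕ → ℝ} {x : X} :
    Bz T.symm g f w x ↔ Bz T f g w x := by
  unfold Bz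
  have e : ∀ N : ℕ, (∑ n ∈ range N, w n * (g (T.symm^[n] x) * f (T.symm.symm^[n] x))) / (N : ℝ) =
      (∑ n ∈ range N, w n * (f (T^[n] x) * g (T.symm^[n] x))) / N := by
    intro N
    congr 1
    refine Finset.sum_congr rfl fun n _ => ?_
    rw [mul_comm (g _)]
    rfl
  simp_rw [e]

/-- approximation of the first function -/
theorem approx_left {T : X ≃ᵐ X} (hT : MeasurePreserving T μ μ) {f g : X → ℝ}
    (hf : Measurable f) {C : ℝ} (hfb : ∀ x, |f x| ≤ C) {D : ℝ} (hgb : ∀ x, |g x| ≤ D) {w : ℕ → ℝ}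
    (hw : ∀ n, |w n| ≤ 1)
    (happ : ∀ ε : ℝ, 0 < ε → ∃ d : X → ℝ, Measurable d ∧ (∃ K, ∀ x, |d x| ≤ K) ∧
      ∫ x, |f x - d x| ∂μ ≤ ε ∧ ∀ᵐ x ∂μ, Bz T d g w x) :
    ∀ᵐ x ∂μ, Bz T f g w x := by
  choose! A hD1 hD2 hD3 hD4 using happ
  set d : ℕ → X → ℝ := fun i => A ((1 / 4 : ℝ) ^ i) with hd
  have hpos : ∀ i : ℕ, (0 : ℝ) < (1 / 4 : ℝ) ^ i := fun i => by positivity
  have hpos2 : ∀ i : ℕ, (0 : ℝ) < (1 / 2 : ℝ) ^ i := fun i => by positivity
  set s : ℕ → Set X := fun i => {x | ∃ N : ℕ, (1 / 2 : ℝ) ^ i * N <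
    ∑ n ∈ range N, (fun x => |f x - d i x|) (T^[n] x)} with hs
  have hms : ∀ i, μ (s i) ≤ ENNReal.ofReal ((1 / 2 : ℝ) ^ i) := by
    intro i
    obtain ⟨K, hK⟩ := hD2 _ (hpos i)
    refine (maxi hT (ψ := fun x => |f x - d i x|) (hf.sub (hD1 _ (hpos i))).abs
      (fun x => abs_nonneg _) (K := C + K) (fun x => ?_) (hpos2 i)).trans ?_
    · refine (abs_sub _ _).trans ?_
      exact add_le_add (hfb x) (hK x)
    · refine ENNReal.ofReal_le_ofReal ?_
      rw [div_le_iff₀ (hpos2 i)]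
      refine (hD3 _ (hpos i)).trans (le_of_eq ?_)
      rw [← mul_pow]
      norm_num
  have hsum : ∑' i, μ (s i) ≠ ⊤ := by
    refine ne_top_of_le_ne_top ?_ (ENNReal.tsum_le_tsum hms)
    exact (summable_geometric_of_lt_one (by norm_num) (by norm_num)).tsum_ofReal_ne_top
  have hall : ∀ᵐ x ∂μ, ∀ i, Bz T (d i) g w x := ae_all_iff.mpr fun i => hD4 _ (hpos i)
  filter_upwards [ae_eventually_notMem hsum, hall] with x h1 hx
  unfold Bz
  rw [Metric.tendsto_atTop]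
  intro ε hε
  have hD0 : (0 : ℝ) < max D 1 := lt_of_lt_of_le one_pos (le_max_right _ _)
  obtain ⟨i0, hi0⟩ := eventually_atTop.mp h1
  obtain ⟨i1, hi1⟩ := exists_pow_lt_of_lt_one (div_pos (half_pos hε) hD0)
    (by norm_num : (1 / 2 : ℝ) < 1)
  set i := max i0 i1 with hi
  have hpi : max D 1 * (1 / 2 : ℝ) ^ i < ε / 2 := by
    have : (1 / 2 : ℝ) ^ i < ε / 2 / max D 1 :=
      lt_of_le_of_lt (pow_le_pow_of_le_one (by norm_num) (by norm_num) (le_max_right _ _)) hi1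
    rw [lt_div_iff₀ hD0] at this
    linarith
  have hns := hi0 i (le_max_left _ _)
  have hns' : ∀ N : ℕ, ∑ n ∈ range N, |f (T^[n] x) - d i (T^[n] x)| ≤ (1 / 2 : ℝ) ^ i * N := by
    intro N
    by_contra hc
    exact hns ⟨N, not_le.mp hc⟩
  obtain ⟨N0, hN0⟩ := (Metric.tendsto_atTop.mp (hx i)) (ε / 2) (half_pos hε)
  refine ⟨max N0 1, fun N hN => ?_⟩
  have hN1 : 0 < N := lt_of_lt_of_le one_pos ((le_max_right _ _).trans hN)
  have hN' : (0 : ℝ) < N := by exact_mod_cast hN1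
  have h4 := hN0 N ((le_max_left _ _).trans hN)
  rw [dist_zero_right, Real.norm_eq_abs] at h4 ⊢
  have h5 : |(∑ n ∈ range N, w n * (f (T^[n] x) * g (T.symm^[n] x))) / N -
      (∑ n ∈ range N, w n * (d i (T^[n] x) * g (T.symm^[n] x))) / N| ≤
      max D 1 * (1 / 2 : ℝ) ^ i := by
    rw [← sub_div, ← Finset.sum_sub_distrib, abs_div, Nat.abs_cast, div_le_iff₀ hN']
    refine (Finset.abs_sum_le_sum_abs _ _).trans ?_
    have h6 := mul_le_mul_of_nonneg_left (hns' N) hD0.le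
    rw [Finset.mul_sum] at h6
    refine le_trans ?_ (h6.trans (le_of_eq (by ring)))
    refine Finset.sum_le_sum fun n _ => ?_
    have e : w n * (f (T^[n] x) * g (T.symm^[n] x)) - w n * (d i (T^[n] x) * g (T.symm^[n] x)) =
        w n * ((f (T^[n] x) - d i (T^[n] x)) * g (T.symm^[n] x)) := by ring
    rw [e, abs_mul, abs_mul]
    have a1 := hw n
    have a2 : |g (T.symm^[n] x)| ≤ max D 1 := (hgb _).trans (le_max_left _ _)
    calc |w n| * (|f (T^[n] x) - d i (T^[n] x)| * |g (T.symm^[n] x)|)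
        ≤ 1 * (|f (T^[n] x) - d i (T^[n] x)| * |g (T.symm^[n] x)|) :=
          mul_le_mul_of_nonneg_right a1 (by positivity)
      _ = |g (T.symm^[n] x)| * |f (T^[n] x) - d i (T^[n] x)| := by ring
      _ ≤ max D 1 * |f (T^[n] x) - d i (T^[n] x)| :=
          mul_le_mul_of_nonneg_right a2 (abs_nonneg _)
  have h6 := abs_le.mp h5
  have h7 := abs_lt.mp h4
  rw [abs_lt]
  constructor
  · linarith [h6.1, h7.1]
  · linarith [h6.2, h7.2]

/-- approximation of the second function -/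
theorem approx_right {T : X ≃ᵐ X} (hT : MeasurePreserving T μ μ) {f g : X → ℝ}
    (hg : Measurable g) {C : ℝ} (hgb : ∀ x, |g x| ≤ C) {D : ℝ} (hfb : ∀ x, |f x| ≤ D) {w : ℕ → ℝ}
    (hw : ∀ n, |w n| ≤ 1)
    (happ : ∀ ε : ℝ, 0 < ε → ∃ d : X → ℝ, Measurable d ∧ (∃ K, ∀ x, |d x| ≤ K) ∧
      ∫ x, |g x - d x| ∂μ ≤ ε ∧ ∀ᵐ x ∂μ, Bz T f d w x) :
    ∀ᵐ x ∂μ, Bz T f g w x := by
  have h := approx_left (hT.symm T) hg hgb hfb hw (T := T.symm) (g := f) ?_
  · filter_upwards [h] with x hx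
    exact Bz_swap.mp hx
  · intro ε hε
    obtain ⟨d, h1, h2, h3, h4⟩ := happ ε hε
    refine ⟨d, h1, h2, h3, ?_⟩
    filter_upwards [h4] with x hx
    exact Bz_swap.mpr hx

end Pool.Agent.H85.RTX
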