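import Pool.Agent.H85.RTX.Var
import Pool.Agent.H85.RTX.Approx

/-!
# Bilinear averages of functions which are orthogonal to the tail: real version
-/

namespace Pool.Agent.H85.RTX

open MeasureTheory Finset Filter Topology
open Pool.Agent.H85.RT Pool.Agent.H85.RTM

section approx

variable {Ω : Type*} [m0 : MeasurableSpace Ω] {m : Measure Ω} [IsProbabilityMeasure m]

theorem tail_approx (Hs Ls : ℕ → MeasurableSpace Ω) (hH : Monotone Hs) (hHle : ∀ k, Hs k ≤ m0)
    (hL : Antitone Ls) (hLH : ∀ k, Ls k ≤ Hs k) {h : Ω → ℝ} (hm : Measurable h)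
    (hb : ∀ ω, |h ω| ≤ 1 / 2) (hspan : AEStronglyMeasurable[⨆ k, Hs k] h m) {ε : ℝ} (hε : 0 < ε) :
    ∃ (k : ℕ) (d : Ω → ℝ), Measurable[Hs k] d ∧ (∀ ω, |d ω| ≤ 1) ∧
      ∫ ω, |h ω - clip ((m[h | ⨅ k, Ls k]) ω) - d ω| ∂m ≤ ε ∧
      ∀ Z : Ω → ℝ, Measurable[Ls k] Z → (∀ ω, |Z ω| ≤ 1) → ∫ ω, d ω * Z ω ∂m = 0 := by
  have hLle : ∀ k, Ls k ≤ m0 := fun k => (hLH k).trans (hHle k)
  have hinf : (⨅ k, Ls k) ≤ m0 := (iInf_le Ls 0).trans (hLle 0)
  have hh : Integrable h m := int_of_bdd hm (C := 1 / 2) hb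
  have hbd : ∀ M : MeasurableSpace Ω, ∀ᵐ ω ∂m, |(m[h | M]) ω| ≤ 1 / 2 := fun M =>
    ae_bdd_abs_condExp_of_ae_bdd_abs (Eventually.of_forall hb)
  have hclip : ∀ M : MeasurableSpace Ω, (fun ω => clip ((m[h | M]) ω)) =ᵐ[m] m[h | M] := by
    intro M
    filter_upwards [hbd M] with ω hω
    exact clip_of hω
  have hcm : ∀ M : MeasurableSpace Ω, Measurable[M] (fun ω => clip ((m[h | M]) ω)) := fun M =>
    clip_cont.measurable.comp (stronglyMeasurable_condExp (μ := m) (m := M) (f := h)).measurable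
  set h' : Ω → ℝ := fun ω => h ω - clip ((m[h | ⨅ k, Ls k]) ω) with hh'
  have hup := upward (m := m) Hs hH hHle h
  obtain ⟨K, hK⟩ := eventually_atTop.mp (hup.eventually (gt_mem_nhds (half_pos hε)))
  obtain ⟨k, hkK, hk⟩ := downward (m := m) Ls hL hLle hm hb (half_pos hε) K
  have hk2 := hK k hkK
  set d : Ω → ℝ := fun ω => clip ((m[h | Hs k]) ω) - clip ((m[h | Ls k]) ω) with hd
  have hdH : Measurable[Hs k] d :=
    (hcm (Hs k)).sub ((hcm (Ls k)).mono (hLH k) le_rfl)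
  have hdm : Measurable d := hdH.mono (hHle k) le_rfl
  have hdb : ∀ ω, |d ω| ≤ 1 := by
    intro ω
    refine (abs_sub _ _).trans ?_
    have h1 := clip_abs ((m[h | Hs k]) ω)
    have h2 := clip_abs ((m[h | Ls k]) ω)
    linarith
  refine ⟨k, d, hdH, hdb, ?_, ?_⟩
  · have hspan' : m[h | ⨆ k, Hs k] =ᵐ[m] h :=
      condExp_of_aestronglyMeasurable' (iSup_le hHle) hspan hh
    have e : (fun ω => |h' ω - d ω|) ≤ᵐ[m] fun ω =>
        |(m[h | Hs k]) ω - (m[h | ⨆ k, Hs k]) ω| + |(m[h | Ls k]) ω - (m[h | ⨅ k, Ls k]) ω| := by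
      filter_upwards [hspan', hclip (Hs k), hclip (Ls k), hclip (⨅ k, Ls k)] with ω a1 a2 a3 a4
      rw [hh', hd]
      simp only
      rw [a1, a2, a3, a4]
      have e2 : h ω - (m[h | ⨅ k, Ls k]) ω - ((m[h | Hs k]) ω - (m[h | Ls k]) ω) =
        ((m[h | Ls k]) ω - (m[h | ⨅ k, Ls k]) ω) - ((m[h | Hs k]) ω - h ω) := by ring
      rw [e2, add_comm]
      exact abs_sub _ _
    have i1 : Integrable (fun ω => |(m[h | Hs k]) ω - (m[h | ⨆ k, Hs k]) ω|) m :=
      (integrable_condExp.sub integrable_condExp).abs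
    have i2 : Integrable (fun ω => |(m[h | Ls k]) ω - (m[h | ⨅ k, Ls k]) ω|) m :=
      (integrable_condExp.sub integrable_condExp).abs
    have i3 : Integrable (fun ω => |h' ω - d ω|) m :=
      int_of_bdd ((hm.sub ((hcm _).mono hinf le_rfl)).sub hdm).abs (C := 2) fun ω => by
        rw [abs_abs]
        refine (abs_sub _ _).trans ?_
        have h1 := hdb ω
        have h2 : |h' ω| ≤ 1 := by
          refine (abs_sub _ _).trans ?_
          have h1 := hb ω
          have h2 := clip_abs ((m[h | ⨅ k, Ls k]) ω)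
          linarith
        linarith
    have h1 := integral_mono_ae i3 (i1.add i2) e
    have h2 := integral_add i1 i2
    have h3 : ∫ ω, ((fun ω => |(m[h | Hs k]) ω - (m[h | ⨆ k, Hs k]) ω|) +
        fun ω => |(m[h | Ls k]) ω - (m[h | ⨅ k, Ls k]) ω|) ω ∂m =
        ∫ ω, |(m[h | Hs k]) ω - (m[h | ⨆ k, Hs k]) ω| ∂m +
        ∫ ω, |(m[h | Ls k]) ω - (m[h | ⨅ k, Ls k]) ω| ∂m := h2
    rw [h3] at h1
    linarith
  · intro Z hZ hZb
    have hZs : StronglyMeasurable[Ls k] Z := hZ.stronglyMeasurable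
    have hZs' : StronglyMeasurable[Hs k] Z := hZs.mono (hLH k)
    have hZbb : ∀ᵐ ω ∂m, |Z ω| ≤ 1 := Eventually.of_forall hZb
    have h1 := int_mul_condExp (m := m) (hHle k) hh hZs' hZbb
    have h2 := int_mul_condExp (m := m) (hLle k) hh hZs hZbb
    have hZ0 : AEStronglyMeasurable Z m := (hZs.mono (hLle k)).aestronglyMeasurable
    have j1 : Integrable (fun ω => (m[h | Hs k]) ω * Z ω) m :=
      integrable_condExp.mul_bdd hZ0 (c := 1) (by simpa [Real.norm_eq_abs] using hZbb)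
    have j2 : Integrable (fun ω => (m[h | Ls k]) ω * Z ω) m :=
      integrable_condExp.mul_bdd hZ0 (c := 1) (by simpa [Real.norm_eq_abs] using hZbb)
    calc ∫ ω, d ω * Z ω ∂m
        = ∫ ω, ((m[h | Hs k]) ω * Z ω - (m[h | Ls k]) ω * Z ω) ∂m := by
          refine integral_congr_ae ?_
          filter_upwards [hclip (Hs k), hclip (Ls k)] with ω a2 a3
          rw [hd]
          simp only
          rw [a2, a3, sub_mul]
      _ = 0 := by rw [integral_sub j1 j2, ← h1, ← h2, sub_self]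

theorem up_approx (Hs : ℕ → MeasurableSpace Ω) (hH : Monotone Hs) (hHle : ∀ k, Hs k ≤ m0)
    {h : Ω → ℝ} (hm : Measurable h) (hb : ∀ ω, |h ω| ≤ 1 / 2)
    (hspan : AEStronglyMeasurable[⨆ k, Hs k] h m) {ε : ℝ} (hε : 0 < ε) :
    ∃ (k : ℕ) (d : Ω → ℝ), Measurable[Hs k] d ∧ (∀ ω, |d ω| ≤ 1 / 2) ∧
      ∫ ω, |h ω - d ω| ∂m ≤ ε := by
  have hh : Integrable h m := int_of_bdd hm (C := 1 / 2) hb
  have hbd : ∀ M : MeasurableSpace Ω, ∀ᵐ ω ∂m, |(m[h | M]) ω| ≤ 1 / 2 := fun M =>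
    ae_bdd_abs_condExp_of_ae_bdd_abs (Eventually.of_forall hb)
  have hup := upward (m := m) Hs hH hHle h
  obtain ⟨k, hk⟩ := (hup.eventually (gt_mem_nhds hε)).exists
  refine ⟨k, fun ω => clip ((m[h | Hs k]) ω), ?_, fun ω => clip_abs _, ?_⟩
  · exact clip_cont.measurable.comp
      (stronglyMeasurable_condExp (μ := m) (m := Hs k) (f := h)).measurable
  · have hspan' : m[h | ⨆ k, Hs k] =ᵐ[m] h :=
      condExp_of_aestronglyMeasurable' (iSup_le hHle) hspan hh
    refine le_trans (le_of_eq (integral_congr_ae ?_)) hk.le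
    filter_upwards [hspan', hbd (Hs k)] with ω a1 a2
    rw [clip_of a2, a1, abs_sub_comm]

end approx

section side

variable {X : Type*} {L : MeasurableSpace X} [m0 : MeasurableSpace X] {μ : Measure X}
  [IsProbabilityMeasure μ]

omit [IsProbabilityMeasure μ] in
theorem int_comp {S : X → X} (hS : MeasurePreserving S μ μ) {F : X → ℝ} (hF : Measurable F) :
    ∫ x, F (S x) ∂μ = ∫ x, F x ∂μ := by
  have h := integral_map (μ := μ) hS.measurable.aemeasurable (f := F)
    (by rw [hS.map_eq]; exact hF.aestronglyMeasurable)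
  rw [hS.map_eq] at h
  exact h.symm

omit [IsProbabilityMeasure μ] [m0 : MeasurableSpace X] in
theorem symm_fold [MeasurableSpace X] (T : X ≃ᵐ X) (n i : ℕ) (x : X) :
    T.symm^[i + n] (T^[n] x) = T.symm^[i] x := by
  rw [Function.iterate_add_apply]
  congr 1
  exact Function.LeftInverse.iterate (fun x => T.symm_apply_apply x) n x

omit [IsProbabilityMeasure μ] [m0 : MeasurableSpace X] in
theorem fold_symm [MeasurableSpace X] (T : X ≃ᵐ X) (n i : ℕ) (x : X) :
    T^[i + n] (T.symm^[n] x) = T^[i] x := by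
  rw [Function.iterate_add_apply]
  congr 1
  exact Function.RightInverse.iterate (fun x => T.apply_symm_apply x) n x

/-- the first function is orthogonal to the past of both -/
theorem sideA {T : X ≃ᵐ X} (hT : MeasurePreserving T μ μ) {d h : X → ℝ} {g : ℕ}
    (hd : Measurable d) (hdb : ∀ x, |d x| ≤ 1) (hh : Measurable h) (hhb : ∀ x, |h x| ≤ 1)
    (hd1 : ∀ i, g ≤ i → Measurable[L] (fun x => d (T.symm^[i] x)))
    (hh1 : ∀ i, g ≤ i → Measurable[L] (fun x => h (T.symm^[i] x)))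
    (h2 : ∀ Z : X → ℝ, Measurable[L] Z → (∀ x, |Z x| ≤ 1) → ∫ x, d x * Z x ∂μ = 0)
    {w : ℕ → ℝ} (hw : ∀ n, |w n| ≤ 1) : ∀ᵐ x ∂μ, Bz T d h w x := by
  have hTi : ∀ i, Measurable (T^[i]) := fun i => T.measurable.iterate i
  have hTs : ∀ i, Measurable (T.symm^[i]) := fun i => T.symm.measurable.iterate i
  refine orth_null (Y := fun n x => w n * (d (T^[n] x) * h (T.symm^[n] x))) (g := g)
    (fun n => ((hd.comp (hTi n)).mul (hh.comp (hTs n))).const_mul _) (fun n x => ?_) ?_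
  · rw [abs_mul, abs_mul]
    exact mul_le_one₀ (hw n) (by positivity) (mul_le_one₀ (hdb _) (abs_nonneg _) (hhb _))
  · intro n m hnm _
    set Z : X → ℝ := fun y => d (T.symm^[m - n] y) * (h (T.symm^[n + m] y) *
      h (T.symm^[m + m] y)) with hZ
    have hZL : Measurable[L] Z :=
      (hd1 (m - n) (by omega)).mul ((hh1 (n + m) (by omega)).mul (hh1 (m + m) (by omega)))
    have hZb : ∀ x, |Z x| ≤ 1 := by
      intro x
      simp only [hZ, abs_mul]
      exact mul_le_one₀ (hdb _) (by positivity) (mul_le_one₀ (hhb _) (abs_nonneg _) (hhb _))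
    have hZm : Measurable Z :=
      (hd.comp (hTs _)).mul ((hh.comp (hTs _)).mul (hh.comp (hTs _)))
    have e : ∀ x, w n * (d (T^[n] x) * h (T.symm^[n] x)) * (w m * (d (T^[m] x) *
        h (T.symm^[m] x))) = (w n * w m) * (fun y => d y * Z y) (T^[m] x) := by
      intro x
      have e1 : T.symm^[m - n] (T^[m] x) = T^[n] x := sym_iter T (by omega) x
      have e2 : T.symm^[n + m] (T^[m] x) = T.symm^[n] x := symm_fold T m n x
      have e3 : T.symm^[m + m] (T^[m] x) = T.symm^[m] x := symm_fold T m m x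
      simp only [hZ]
      rw [e1, e2, e3]
      ring
    simp_rw [e]
    rw [integral_const_mul, int_comp (hT.iterate m) (F := fun y => d y * Z y) (hd.mul hZm),
      h2 Z hZL hZb, mul_zero]

/-- the second function is orthogonal to the past, the first one is invariant -/
theorem sideB {T : X ≃ᵐ X} (hT : MeasurePreserving T μ μ) {F d : X → ℝ} {g : ℕ}
    (hF : Measurable F) (hFb : ∀ x, |F x| ≤ 1) (hd : Measurable d) (hdb : ∀ x, |d x| ≤ 1)
    (hF1 : ∀ i, Measurable[L] (fun x => F (T^[i] x)))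
    (hd1 : ∀ i, g ≤ i → Measurable[L] (fun x => d (T.symm^[i] x)))
    (h2 : ∀ Z : X → ℝ, Measurable[L] Z → (∀ x, |Z x| ≤ 1) → ∫ x, d x * Z x ∂μ = 0)
    {w : ℕ → ℝ} (hw : ∀ n, |w n| ≤ 1) : ∀ᵐ x ∂μ, Bz T F d w x := by
  have hTi : ∀ i, Measurable (T^[i]) := fun i => T.measurable.iterate i
  have hTs : ∀ i, Measurable (T.symm^[i]) := fun i => T.symm.measurable.iterate i
  refine orth_null (Y := fun n x => w n * (F (T^[n] x) * d (T.symm^[n] x))) (g := g)
    (fun n => ((hF.comp (hTi n)).mul (hd.comp (hTs n))).const_mul _) (fun n x => ?_) ?_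
  · rw [abs_mul, abs_mul]
    exact mul_le_one₀ (hw n) (by positivity) (mul_le_one₀ (hFb _) (abs_nonneg _) (hdb _))
  · intro n m hnm _
    set Z : X → ℝ := fun y => d (T.symm^[m - n] y) * (F (T^[n + n] y) *
      F (T^[m + n] y)) with hZ
    have hZL : Measurable[L] Z := (hd1 (m - n) (by omega)).mul ((hF1 (n + n)).mul (hF1 (m + n)))
    have hZb : ∀ x, |Z x| ≤ 1 := by
      intro x
      simp only [hZ, abs_mul]
      exact mul_le_one₀ (hdb _) (by positivity) (mul_le_one₀ (hFb _) (abs_nonneg _) (hFb _))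
    have hZm : Measurable Z :=
      (hd.comp (hTs _)).mul ((hF.comp (hTi _)).mul (hF.comp (hTi _)))
    have e : ∀ x, w n * (F (T^[n] x) * d (T.symm^[n] x)) * (w m * (F (T^[m] x) *
        d (T.symm^[m] x))) = (w n * w m) * (fun y => d y * Z y) (T.symm^[n] x) := by
      intro x
      have e1 : T.symm^[m - n] (T.symm^[n] x) = T.symm^[m] x := by
        rw [← Function.iterate_add_apply]
        congr 2
        omega
      have e2 : T^[n + n] (T.symm^[n] x) = T^[n] x := fold_symm T n n x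
      have e3 : T^[m + n] (T.symm^[n] x) = T^[m] x := fold_symm T n m x
      simp only [hZ]
      rw [e1, e2, e3]
      ring
    simp_rw [e]
    rw [integral_const_mul, int_comp ((hT.symm T).iterate n) (F := fun y => d y * Z y)
      (hd.mul hZm), h2 Z hZL hZb, mul_zero]

end side

section core

variable {X : Type*} {P : MeasurableSpace X} [m0 : MeasurableSpace X] {μ : Measure X}
  [IsProbabilityMeasure μ]

omit [m0 : MeasurableSpace X] in
theorem sig_shift' [MeasurableSpace X] (S : X ≃ᵐ X) (hP : P ≤ P.comap S) (k k' i : ℕ)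
    (hi : k + k' ≤ i) (d : X → ℝ) (hd : Measurable[P.comap S^[k']] d) :
    Measurable[P.comap S.symm^[k]] (fun x => d (S.symm^[i] x)) := by
  have h1 : Measurable[(P.comap S^[k']).comap S.symm^[i]] (fun x => d (S.symm^[i] x)) :=
    hd.comp (comap_measurable _)
  rw [MeasurableSpace.comap_comp, iter_comp_symm S (show k' ≤ i by omega)] at h1
  exact h1.mono (sig_anti S hP (show k ≤ i - k' by omega)) le_rfl

theorem coreA {T : X ≃ᵐ X} (hT : MeasurePreserving T μ μ) (hP0 : P ≤ m0) (hP : P ≤ P.comap T)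
    {f g : X → ℝ} (hf : Measurable f) (hfb : ∀ x, |f x| ≤ 1 / 2) (hg : Measurable g)
    (hgb : ∀ x, |g x| ≤ 1 / 2) (hfs : AEStronglyMeasurable[⨆ k : ℕ, P.comap T^[k]] f μ)
    (hgs : AEStronglyMeasurable[⨆ k : ℕ, P.comap T^[k]] g μ) {w : ℕ → ℝ} (hw : ∀ n, |w n| ≤ 1) :
    ∀ᵐ x ∂μ, Bz T (fun x => f x - clip ((μ[f | ⨅ k : ℕ, P.comap T.symm^[k]]) x)) g w x := by
  have hHm := sig_mono T hP
  have hHle := sig_le T hP0
  have hLa := sig_anti T hP
  have hLH := sig_LH T hP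
  have hinf : (⨅ k : ℕ, P.comap T.symm^[k]) ≤ m0 :=
    (iInf_le (fun k : ℕ => P.comap T.symm^[k]) 0).trans ((hLH 0).trans (hHle 0))
  have hcm : Measurable (fun x => clip ((μ[f | ⨅ k : ℕ, P.comap T.symm^[k]]) x)) :=
    clip_cont.measurable.comp ((stronglyMeasurable_condExp (μ := μ)
      (m := ⨅ k : ℕ, P.comap T.symm^[k]) (f := f)).measurable.mono hinf le_rfl)
  refine approx_left hT (C := 1) (D := 1) (hf.sub hcm) (fun x => ?_)
    (fun x => (hgb x).trans (by norm_num)) hw ?_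
  · refine (abs_sub _ _).trans ?_
    have h1 := hfb x
    have h2 := clip_abs ((μ[f | ⨅ k : ℕ, P.comap T.symm^[k]]) x)
    linarith
  · intro ε hε
    obtain ⟨k, d, hdH, hdb, hdε, hdo⟩ := tail_approx (m := μ) (fun k : ℕ => P.comap T^[k])
      (fun k : ℕ => P.comap T.symm^[k]) hHm hHle hLa hLH hf hfb hfs hε
    have hdm : Measurable d := hdH.mono (hHle k) le_rfl
    refine ⟨d, hdm, ⟨1, hdb⟩, hdε, ?_⟩
    refine approx_right hT (C := 1) (D := 1) hg (fun x => (hgb x).trans (by norm_num)) hdb hw ?_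
    intro ε' hε'
    obtain ⟨k', h, hhH, hhb, hhε⟩ := up_approx (m := μ) (fun k : ℕ => P.comap T^[k])
      hHm hHle hg hgb hgs hε'
    have hhm : Measurable h := hhH.mono (hHle k') le_rfl
    have hhb' : ∀ x, |h x| ≤ 1 := fun x => (hhb x).trans (by norm_num)
    refine ⟨h, hhm, ⟨1, hhb'⟩, hhε, ?_⟩
    exact sideA (L := P.comap T.symm^[k]) (g := k + k + k') hT hdm hdb hhm hhb'
      (fun i hi => sig_shift' T hP k k i (by omega) d hdH)
      (fun i hi => sig_shift' T hP k k' i (by omega) h hhH) hdo hw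

theorem coreB {T : X ≃ᵐ X} (hT : MeasurePreserving T μ μ) (hP0 : P ≤ m0) (hP : P ≤ P.comap T)
    {F g : X → ℝ} (hF : Measurable[⨅ k : ℕ, P.comap T.symm^[k]] F) (hFb : ∀ x, |F x| ≤ 1)
    (hg : Measurable g) (hgb : ∀ x, |g x| ≤ 1 / 2)
    (hgs : AEStronglyMeasurable[⨆ k : ℕ, P.comap T^[k]] g μ) {w : ℕ → ℝ} (hw : ∀ n, |w n| ≤ 1) :
    ∀ᵐ x ∂μ, Bz T F (fun x => g x - clip ((μ[g | ⨅ k : ℕ, P.comap T.symm^[k]]) x)) w x := by
  have hHm := sig_mono T hP
  have hHle := sig_le T hP0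
  have hLa := sig_anti T hP
  have hLH := sig_LH T hP
  have hinf : (⨅ k : ℕ, P.comap T.symm^[k]) ≤ m0 :=
    (iInf_le (fun k : ℕ => P.comap T.symm^[k]) 0).trans ((hLH 0).trans (hHle 0))
  have hcm : Measurable (fun x => clip ((μ[g | ⨅ k : ℕ, P.comap T.symm^[k]]) x)) :=
    clip_cont.measurable.comp ((stronglyMeasurable_condExp (μ := μ)
      (m := ⨅ k : ℕ, P.comap T.symm^[k]) (f := g)).measurable.mono hinf le_rfl)
  refine approx_right hT (C := 1) (D := 1) (hg.sub hcm) (fun x => ?_) hFb hw ?_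
  · refine (abs_sub _ _).trans ?_
    have h1 := hgb x
    have h2 := clip_abs ((μ[g | ⨅ k : ℕ, P.comap T.symm^[k]]) x)
    linarith
  · intro ε hε
    obtain ⟨k, d, hdH, hdb, hdε, hdo⟩ := tail_approx (m := μ) (fun k : ℕ => P.comap T^[k])
      (fun k : ℕ => P.comap T.symm^[k]) hHm hHle hLa hLH hg hgb hgs hε
    have hdm : Measurable d := hdH.mono (hHle k) le_rfl
    refine ⟨d, hdm, ⟨1, hdb⟩, hdε, ?_⟩
    refine sideB (L := P.comap T.symm^[k]) (g := k + k) hT (hF.mono hinf le_rfl) hFb hdm hdb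
      (fun i => ?_) (fun i hi => sig_shift' T hP k k i (by omega) d hdH) hdo hw
    have h1 : Measurable[P.comap T.symm^[k + i]] F :=
      hF.mono (iInf_le (fun k : ℕ => P.comap T.symm^[k]) (k + i)) le_rfl
    have h2 : Measurable[(P.comap T.symm^[k + i]).comap T^[i]] (fun x => F (T^[i] x)) :=
      h1.comp (comap_measurable _)
    rw [MeasurableSpace.comap_comp] at h2
    have h3 : T.symm^[k + i] ∘ T^[i] = T.symm^[k] := by
      funext x
      exact symm_fold T i k x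
    rw [h3] at h2
    exact h2

/-- both functions may be replaced by their conditional expectations on the tail: past case -/
theorem core_main {T : X ≃ᵐ X} (hT : MeasurePreserving T μ μ) (hP0 : P ≤ m0) (hP : P ≤ P.comap T)
    {f g : X → ℝ} (hf : Measurable f) (hfb : ∀ x, |f x| ≤ 1 / 2) (hg : Measurable g)
    (hgb : ∀ x, |g x| ≤ 1 / 2) (hfs : AEStronglyMeasurable[⨆ k : ℕ, P.comap T^[k]] f μ)
    (hgs : AEStronglyMeasurable[⨆ k : ℕ, P.comap T^[k]] g μ) {w : ℕ → ℝ} (hw : ∀ n, |w n| ≤ 1) :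
    ∀ᵐ x ∂μ, Tendsto (fun N : ℕ => (∑ n ∈ range N, w n * (f (T^[n] x) * g (T.symm^[n] x) -
      (μ[f | ⨅ k : ℕ, P.comap T.symm^[k]]) (T^[n] x) *
        (μ[g | ⨅ k : ℕ, P.comap T.symm^[k]]) (T.symm^[n] x))) / N) atTop (𝓝 0) := by
  have hclip : ∀ h : X → ℝ, Measurable h → (∀ x, |h x| ≤ 1 / 2) →
      (fun x => clip ((μ[h | ⨅ k : ℕ, P.comap T.symm^[k]]) x)) =ᵐ[μ]
        μ[h | ⨅ k : ℕ, P.comap T.symm^[k]] := by
    intro h hm hb
    have h1 : ∀ᵐ x ∂μ, |(μ[h | ⨅ k : ℕ, P.comap T.symm^[k]]) x| ≤ 1 / 2 :=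
      ae_bdd_abs_condExp_of_ae_bdd_abs (Eventually.of_forall hb)
    filter_upwards [h1] with x hx
    exact clip_of hx
  have hFm : Measurable[⨅ k : ℕ, P.comap T.symm^[k]]
      (fun x => clip ((μ[f | ⨅ k : ℕ, P.comap T.symm^[k]]) x)) :=
    clip_cont.measurable.comp (stronglyMeasurable_condExp (μ := μ)
      (m := ⨅ k : ℕ, P.comap T.symm^[k]) (f := f)).measurable
  have hA := coreA hT hP0 hP hf hfb hg hgb hfs hgs hw
  have hB := coreB hT hP0 hP hFm (fun x => (clip_abs _).trans (by norm_num)) hg hgb hgs hw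
  filter_upwards [hA, hB, ae_orbit hT (hclip f hf hfb), ae_orbit (hT.symm T) (hclip g hg hgb)]
    with x a1 a2 a3 a4
  have h3 := Tendsto.add a1 a2
  rw [add_zero] at h3
  refine h3.congr fun N => ?_
  rw [← add_div, ← Finset.sum_add_distrib]
  congr 1
  refine Finset.sum_congr rfl fun n _ => ?_
  have b3 := a3 n
  have b4 := a4 n
  simp only at b3 b4 ⊢
  rw [b3, b4]
  ring

end core

end Pool.Agent.H85.RTX
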