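import Pool.Agent.H85.RTM.Seq

/-!
# Second moments of sums of bounded functions, and almost everywhere convergence to zero
-/

namespace Pool.Agent.H85.RTX

open MeasureTheory Finset Filter Topology
open Pool.Agent.H85.RT Pool.Agent.H85.RTM

variable {X : Type*} [MeasurableSpace X] {μ : Measure X} [IsProbabilityMeasure μ]

theorem var_le {Y : ℕ → X → ℝ} (hm : ∀ n, Measurable (Y n)) (hb : ∀ n x, |Y n x| ≤ 1) {g : ℕ}
    {ρ : ℝ} (hρ : 0 ≤ ρ)
    (h : ∀ n m, FarI g n m → g ≤ n → g ≤ m → |∫ x, Y n x * Y m x ∂μ| ≤ ρ) (N : ℕ) :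
    ∫ x, (∑ n ∈ range N, Y n x) ^ 2 ∂μ ≤ 4 * g * N + (N : ℝ) ^ 2 * ρ := by
  classical
  have hbb : ∀ n m x, |Y n x * Y m x| ≤ 1 := by
    intro n m x
    rw [abs_mul]
    exact mul_le_one₀ (hb _ _) (abs_nonneg _) (hb _ _)
  have hi : ∀ n m, Integrable (fun x => Y n x * Y m x) μ := fun n m =>
    int_of_bdd ((hm n).mul (hm m)) (C := 1) (hbb n m)
  have e1 : ∫ x, (∑ n ∈ range N, Y n x) ^ 2 ∂μ =
      ∑ n ∈ range N, ∑ m ∈ range N, ∫ x, Y n x * Y m x ∂μ := by
    have e2 : ∀ x, (∑ n ∈ range N, Y n x) ^ 2 = ∑ n ∈ range N, ∑ m ∈ range N, Y n x * Y m x := by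
      intro x
      rw [sq, Finset.sum_mul_sum]
    simp_rw [e2]
    rw [integral_finsetSum _ fun n _ => integrable_finsetSum _ fun m _ => hi n m]
    refine Finset.sum_congr rfl fun n _ => ?_
    rw [integral_finsetSum _ fun m _ => hi n m]
  rw [e1]
  have key : ∀ n m, ∫ x, Y n x * Y m x ∂μ ≤ ρ + (if ¬ FarI g n m then 1 else 0) +
      (if n < g then 1 else 0) + (if m < g then 1 else 0) := by
    intro n m
    have h1 : ∫ x, Y n x * Y m x ∂μ ≤ 1 := (le_abs_self _).trans (int_le_one (hbb n m))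
    by_cases h2 : FarI g n m
    · by_cases h3 : g ≤ n
      · by_cases h4 : g ≤ m
        · have h5 := (le_abs_self _).trans (h n m h2 h3 h4)
          rw [if_neg (not_not.mpr h2), if_neg (not_lt.mpr h3), if_neg (not_lt.mpr h4)]
          linarith
        · rw [if_neg (not_not.mpr h2), if_neg (not_lt.mpr h3), if_pos (not_le.mp h4)]
          linarith
      · rw [if_neg (not_not.mpr h2), if_pos (not_le.mp h3)]
        have : (0 : ℝ) ≤ if m < g then 1 else 0 := by split_ifs <;> norm_num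
        linarith
    · rw [if_pos h2]
      have h5 : (0 : ℝ) ≤ if m < g then 1 else 0 := by split_ifs <;> norm_num
      have h6 : (0 : ℝ) ≤ if n < g then 1 else 0 := by split_ifs <;> norm_num
      linarith
  have hcard : ((range N).filter (fun n => n < g)).card ≤ g := by
    calc ((range N).filter (fun n => n < g)).card ≤ (range g).card := by
          refine Finset.card_le_card fun n hn => ?_
          rw [Finset.mem_filter] at hn
          exact Finset.mem_range.mpr hn.2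
      _ = g := Finset.card_range g
  have hcard' : (∑ n ∈ range N, if n < g then (1 : ℝ) else 0) ≤ g := by
    rw [← Finset.sum_filter, Finset.sum_const, nsmul_eq_mul, mul_one]
    exact_mod_cast hcard
  have hclose : ∀ n, (∑ m ∈ range N, if ¬ FarI g n m then (1 : ℝ) else 0) ≤ 2 * g := by
    intro n
    rw [← Finset.sum_filter, Finset.sum_const, nsmul_eq_mul, mul_one]
    have := close_card g n N
    calc (((range N).filter (fun b => ¬ FarI g n b)).card : ℝ) ≤ ((2 * g : ℕ) : ℝ) := by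
          exact_mod_cast this
      _ = 2 * g := by push_cast; ring
  calc ∑ n ∈ range N, ∑ m ∈ range N, ∫ x, Y n x * Y m x ∂μ
      ≤ ∑ n ∈ range N, ∑ m ∈ range N, (ρ + (if ¬ FarI g n m then 1 else 0) +
          (if n < g then 1 else 0) + (if m < g then 1 else 0)) :=
        Finset.sum_le_sum fun n _ => Finset.sum_le_sum fun m _ => key n m
    _ = ∑ n ∈ range N, (N * ρ + (∑ m ∈ range N, if ¬ FarI g n m then (1 : ℝ) else 0) +
          N * (if n < g then 1 else 0) + ∑ m ∈ range N, if m < g then (1 : ℝ) else 0) := by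
        refine Finset.sum_congr rfl fun n _ => ?_
        rw [Finset.sum_add_distrib, Finset.sum_add_distrib, Finset.sum_add_distrib]
        simp
    _ ≤ ∑ n ∈ range N, (N * ρ + 2 * g + N * (if n < g then 1 else 0) + g) := by
        refine Finset.sum_le_sum fun n _ => ?_
        have := hclose n
        linarith
    _ = N * (N * ρ + 2 * g) + N * (∑ n ∈ range N, if n < g then (1 : ℝ) else 0) + N * g := by
        rw [Finset.sum_add_distrib, Finset.sum_add_distrib, ← Finset.mul_sum]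
        simp
        ring
    _ ≤ N * (N * ρ + 2 * g) + N * g + N * g := by
        have hN : (0 : ℝ) ≤ N := Nat.cast_nonneg N
        have := mul_le_mul_of_nonneg_left hcard' hN
        linarith
    _ = 4 * g * N + (N : ℝ) ^ 2 * ρ := by ring

theorem null_of_var {Y : ℕ → X → ℝ} (hm : ∀ n, Measurable (Y n)) (hb : ∀ n x, |Y n x| ≤ 1)
    {c : ℕ → ℕ} (hc0 : ∀ j, 0 < c j) (hc : Tendsto c atTop atTop)
    (hr : ∀ a : ℝ, 1 < a → ∀ᶠ j in atTop, (c (j + 1) : ℝ) ≤ a * c j) {b : ℕ → ℝ}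
    (hbs : Summable b) (hv : ∀ j, ∫ x, (∑ n ∈ range (c j), Y n x) ^ 2 ∂μ ≤ b j * (c j : ℝ) ^ 2) :
    ∀ᵐ x ∂μ, Tendsto (fun N : ℕ => (∑ n ∈ range N, Y n x) / N) atTop (𝓝 0) := by
  have hsm : ∀ N : ℕ, Measurable (fun x => ∑ n ∈ range N, Y n x) := fun N =>
    Finset.measurable_sum _ fun n _ => hm n
  have hsb : ∀ N : ℕ, ∀ x, |∑ n ∈ range N, Y n x| ≤ N := by
    intro N x
    refine (Finset.abs_sum_le_sum_abs _ _).trans ?_
    calc ∑ n ∈ range N, |Y n x| ≤ ∑ n ∈ range N, (1 : ℝ) := Finset.sum_le_sum fun n _ => hb n x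
      _ = N := by simp
  have hi : ∀ j, Integrable (fun x => ((∑ n ∈ range (c j), Y n x) / (c j : ℝ)) ^ 2) μ := by
    intro j
    refine int_of_bdd (((hsm (c j)).div_const _).pow_const 2) (C := 1) fun x => ?_
    have hcj : (0 : ℝ) < c j := by exact_mod_cast hc0 j
    rw [abs_pow, abs_div, Nat.abs_cast]
    refine pow_le_one₀ (by positivity) ?_
    rw [div_le_one hcj]
    exact hsb _ x
  have h1 := ae_summable (μ := μ) (r := fun j x => ((∑ n ∈ range (c j), Y n x) / (c j : ℝ)) ^ 2)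
    (c := b) (fun j x => sq_nonneg _) hi hbs ?_
  · filter_upwards [h1] with x hx
    refine interp' (fun n => hb n x) hc0 hc hr ?_
    have h2 := hx.tendsto_atTop_zero
    have h3 := (Real.continuous_sqrt.tendsto 0).comp h2
    rw [Real.sqrt_zero] at h3
    rw [tendsto_zero_iff_abs_tendsto_zero]
    refine h3.congr fun j => ?_
    simp only [Function.comp_apply]
    rw [Real.sqrt_sq_eq_abs]
  · intro j
    have hcj : (0 : ℝ) < c j := by exact_mod_cast hc0 j
    have e : ∀ x, ((∑ n ∈ range (c j), Y n x) / (c j : ℝ)) ^ 2 =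
        ((c j : ℝ) ^ 2)⁻¹ * (∑ n ∈ range (c j), Y n x) ^ 2 := by
      intro x
      rw [div_pow, div_eq_inv_mul]
    simp_rw [e]
    rw [integral_const_mul, inv_mul_le_iff₀ (by positivity), mul_comm]
    exact hv j

theorem sq_ratio (a : ℝ) (ha : 1 < a) :
    ∀ᶠ j : ℕ in atTop, (((j + 1 + 1) ^ 2 : ℕ) : ℝ) ≤ a * ((j + 1) ^ 2 : ℕ) := by
  have h3 : Tendsto (fun n : ℕ => ((1 : ℝ) + 1 / ((n : ℝ) + 1)) ^ 2) atTop (𝓝 ((1 + 0) ^ 2)) :=
    (tendsto_one_div_add_atTop_nhds_zero_nat.const_add 1).pow 2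
  have h4 : ∀ᶠ n : ℕ in atTop, ((1 : ℝ) + 1 / ((n : ℝ) + 1)) ^ 2 < a :=
    h3.eventually (gt_mem_nhds (by norm_num; exact ha))
  filter_upwards [h4] with n hn
  push_cast
  have h5 : ((n : ℝ) + 1 + 1) ^ 2 = (1 + 1 / ((n : ℝ) + 1)) ^ 2 * ((n : ℝ) + 1) ^ 2 := by
    rw [← mul_pow]
    congr 1
    field_simp
  rw [h5]
  exact mul_le_mul_of_nonneg_right hn.le (by positivity)

/-- bounded functions that are orthogonal at large distances -/
theorem orth_null {Y : ℕ → X → ℝ} (hm : ∀ n, Measurable (Y n)) (hb : ∀ n x, |Y n x| ≤ 1) {g : ℕ}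
    (h : ∀ n m, n + g ≤ m → g ≤ n → ∫ x, Y n x * Y m x ∂μ = 0) :
    ∀ᵐ x ∂μ, Tendsto (fun N : ℕ => (∑ n ∈ range N, Y n x) / N) atTop (𝓝 0) := by
  have h' : ∀ n m, FarI g n m → g ≤ n → g ≤ m → |∫ x, Y n x * Y m x ∂μ| ≤ 0 := by
    intro n m hnm h1 h2
    rcases hnm with h3 | h3
    · rw [h n m h3 h1, abs_zero]
    · have e : ∫ x, Y n x * Y m x ∂μ = ∫ x, Y m x * Y n x ∂μ := by
        refine integral_congr_ae (Eventually.of_forall fun x => ?_)
        exact mul_comm _ _
      rw [e, h m n h3 h2, abs_zero]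
  have hs : Summable (fun j : ℕ => (4 * g : ℝ) * (1 / ((j : ℝ) + 1) ^ 2)) := by
    refine Summable.mul_left _ ?_
    have := (summable_nat_add_iff 1).mpr (Real.summable_one_div_nat_pow.mpr (by norm_num : 1 < 2))
    simpa using this
  refine null_of_var hm hb (c := fun j => (j + 1) ^ 2) (fun j => by positivity) ?_ sq_ratio hs ?_
  · refine tendsto_atTop_mono (f := fun n : ℕ => n) (fun n => ?_) tendsto_id
    calc n ≤ n + 1 := Nat.le_succ n
      _ = (n + 1) ^ 1 := (pow_one _).symm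
      _ ≤ (n + 1) ^ 2 := Nat.pow_le_pow_right (Nat.succ_pos n) (by norm_num)
  · intro j
    refine (var_le hm hb le_rfl h' _).trans (le_of_eq ?_)
    push_cast
    have : ((j : ℝ) + 1) ≠ 0 := by positivity
    field_simp
    ring

end Pool.Agent.H85.RTX
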